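import Pool.Agent.H54.CPCert

/-!
MP_a92470_an, Q1: a kernel with a hereditary minimum certificate is a complete Pick kernel.
-/

set_option autoImplicit false

open scoped ComplexOrder ComplexConjugate
open Pool.Agent.H54

namespace Pool.Agent.Results.MP_a92470_an.HereditaryMinimum

universe u

/-- Minimality over two-point sets forces the kernel `h` to be constant where `s` does not
vanish. -/
theorem pair {X : Type u} {k s h : X → X → ℂ} (hk : IsKernel k) (hs : IsKernel s)
    (hh : IsKernel h) (hkhs : ∀ x y, k x y = (1 - h x y) * s x y)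
    (hmin : ∀ X' : Set X, X'.Nonempty → IsMinimumCertificate (restrict X' k) (restrict X' s))
    (x y : X) (hxy : s x y ≠ 0) :
    (h x x).re = (h y y).re ∧ h x y = ((h x x).re : ℂ) ∧ (h x x).re ≤ 1 := by
  classical
  obtain ⟨hx0, hy0⟩ := hs.diag_ne_zero hxy
  have hkX : IsKernel (restrict ({x, y} : Set X) k) := fun N z => hk N (fun i => (z i : X))
  have hcp : IsCP (restrict ({x, y} : Set X) k) := by
    refine isCP_of_two_points hkX ⟨x, by simp⟩ ⟨y, by simp⟩ fun z => ?_
    obtain ⟨z, hz⟩ := z
    rcases hz with rfl | hz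
    · exact Or.inl rfl
    · exact Or.inr (Subtype.ext hz)
  have hcert : IsCertificate (restrict ({x, y} : Set X) k) (restrict ({x, y} : Set X) k) :=
    ⟨hcp, fun _ _ => 0, isKernel_zero, fun a b => by simp⟩
  obtain ⟨q, hq, hqs⟩ := (hmin {x, y} ⟨x, by simp⟩).2.2 _ hcert
  have hval : ∀ a b : ({x, y} : Set X), s a b ≠ 0 → q a b = 1 - h a b := by
    intro a b hab
    rw [hqs a b hab]
    simp only [restrict]
    rw [hkhs, mul_div_assoc, div_self hab, mul_one]
  let xx : ({x, y} : Set X) := ⟨x, by simp⟩
  let yy : ({x, y} : Set X) := ⟨y, by simp⟩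
  have q1 : q xx xx = 1 - h x x := hval xx xx hx0
  have q2 : q yy yy = 1 - h y y := hval yy yy hy0
  have q3 : q xx yy = 1 - h x y := hval xx yy hxy
  have i1 := hh.cauchy_schwarz x y
  have i2 := hq.cauchy_schwarz xx yy
  have i3 := hq.diag_re_nonneg xx
  have i4 := hq.diag_re_nonneg yy
  rw [q1] at i3
  rw [q2] at i4
  rw [q1, q2, q3] at i2
  simp only [Complex.sub_re, Complex.one_re, Complex.normSq_apply, Complex.sub_im,
    Complex.one_im] at i1 i2 i3 i4
  obtain ⟨h1, h2, h3⟩ := eq_of_ineqs (u := (h x y).re) (v := (h x y).im)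
    (hh.diag_re_nonneg x) (hh.diag_re_nonneg y) (by linarith) (by linarith) i1 (by linarith)
  refine ⟨h3, ?_, by linarith⟩
  apply Complex.ext
  · simpa using h1
  · simpa using h2

/-- **Q1 of MP_a92470_an.** If `s` is a complete Pick kernel with `k = (1 - h) s` for a kernel
`h`, and every restriction of `s` to a nonempty subset is a minimum certificate for the
corresponding restriction of `k`, then `k` is a complete Pick kernel, and `k` equals `s` up to
a dyad. -/
theorem result {X : Type u} [Nonempty X] (k s : X → X → ℂ) (hk : IsKernel k)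
    (hks : IsCertificate k s)
    (hmin : ∀ X' : Set X, X'.Nonempty → IsMinimumCertificate (restrict X' k) (restrict X' s)) :
    IsCP k ∧ ∃ δ : X → ℂ, ∀ x y, k x y = (δ x * conj (δ y)) * s x y := by
  obtain ⟨hs, h, hh, hkhs⟩ := hks
  obtain ⟨hsk, hs'⟩ := id hs
  let δ : X → ℂ := fun x => ((Real.sqrt (1 - (h x x).re) : ℝ) : ℂ)
  have key : ∀ x y, k x y = δ x * s x y * conj (δ y) := by
    intro x y
    by_cases hxy : s x y = 0
    · rw [hkhs, hxy]; simp
    · obtain ⟨h1, h2, h3⟩ := pair hk hsk hh hkhs hmin x y hxy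
      rw [hkhs, h2]
      simp only [δ, Complex.conj_ofReal, ← h1]
      have h4 : ((Real.sqrt (1 - (h x x).re) : ℝ) : ℂ) * ((Real.sqrt (1 - (h x x).re) : ℝ) : ℂ) =
          1 - ((h x x).re : ℂ) := by
        rw [← Complex.ofReal_mul, Real.mul_self_sqrt (by linarith)]
        push_cast
        ring
      rw [← h4]
      ring
  have hfun : k = fun x y => δ x * s x y * conj (δ y) := by
    funext x y
    exact key x y
  refine ⟨?_, δ, fun x y => ?_⟩
  · rw [hfun]
    exact hs.dyad δ
  · rw [key x y]
    ring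

end Pool.Agent.Results.MP_a92470_an.HereditaryMinimum
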